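/-
Block RX (problem MP_71c844_lc): the regular expression of the violations of a history.
Author: helper44.
-/
import Mathlib

namespace Pool.Agent.Work.MP_71c844_lc.Rx

open RegularExpression

/-- Regular expressions over `{0, 1}`. -/
abbrev RE : Type := RegularExpression Bool

/-- The code of an expression: Polish notation, three bits per symbol. -/
def enc : RE → List Bool
  | .zero => [false, false, false]
  | .epsilon => [false, false, true]
  | .char false => [false, true, false]
  | .char true => [false, true, true]
  | .plus P Q => [true, false, false] ++ (enc P ++ enc Q)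
  | .comp P Q => [true, false, true] ++ (enc P ++ enc Q)
  | .star P => [true, true, false] ++ enc P

/-- Non-universality of regular expressions: the codes of the expressions which do not denote the
set of all words. -/
def NONUNIV : Set (List Bool) := {w | ∃ R : RE, w = enc R ∧ ∃ h : List Bool, h ∉ R.matches'}

/-! ## Building blocks -/

/-- One word. -/
def wordR : List Bool → RE
  | [] => .epsilon
  | b :: l => .comp (.char b) (wordR l)

/-- One letter. -/
def any1 : RE := .plus (.char false) (.char true)

/-- All words. -/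
def allR : RE := .star any1

/-- All words with `k` letters. -/
def powR : ℕ → RE
  | 0 => .epsilon
  | k + 1 => .comp any1 (powR k)

/-- Union of `n` expressions. -/
def sumR : ℕ → (ℕ → RE) → RE
  | 0, _ => .zero
  | n + 1, f => .plus (f n) (sumR n f)

/-- The block number `j`: `c` bits, lowest first. -/
def bl (c j : ℕ) : List Bool := (List.range c).map (fun i => j.testBit i)

/-- The blocks `j < 2 ^ c` with `P j`; the length of the expression does not depend on `P`. -/
def selR (c : ℕ) (P : ℕ → Bool) : RE :=
  sumR (2 ^ c) (fun j => .comp (if P j then .epsilon else .zero) (wordR (bl c j)))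

/-- Words whose length is a multiple of `c`. -/
def alR (c : ℕ) : RE := .star (powR c)

/-- The first row is wrong or incomplete, from column `i` on; `r` columns remain. -/
def frR (c : ℕ) (I : ℕ → ℕ → Bool) : ℕ → ℕ → RE
  | 0, _ => .zero
  | r + 1, i => .plus .epsilon (.plus (.comp (selR c (fun j => !I i j)) allR)
      (.comp (powR c) (frR c I r (i + 1))))

/-- The expression of the violations: histories are words of blocks of `c` bits; in row `0` of
width `W` the block in column `i` is `j` with `I i j`; adjacent blocks satisfy `H`, blocks at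
distance `W` satisfy `V`, the last block satisfies `F`. -/
def vioR (c W : ℕ) (I H V : ℕ → ℕ → Bool) (F : ℕ → Bool) : RE :=
  .plus (.comp (alR c) (sumR (c - 1) (fun k => powR (k + 1))))
    (.plus (frR c I W 0)
      (.plus (.comp (alR c) (.comp
          (sumR (2 ^ c) (fun j => .comp (wordR (bl c j)) (selR c (fun k => !H j k)))) allR))
        (.plus (.comp (alR c) (.comp
            (sumR (2 ^ c) (fun j => .comp (wordR (bl c j))
              (.comp (powR (c * (W - 1))) (selR c (fun k => !V j k))))) allR))
          (.comp (alR c) (selR c (fun j => !F j))))))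

/-- The word of the first `L` blocks of a sequence. -/
def hist (c : ℕ) (a : ℕ → ℕ) (L : ℕ) : List Bool := (List.range L).flatMap (fun i => bl c (a i))

/-- A valid history. -/
structure Valid (c W : ℕ) (I H V : ℕ → ℕ → Bool) (F : ℕ → Bool) (a : ℕ → ℕ) (L : ℕ) : Prop where
  lt : ∀ i < L, a i < 2 ^ c
  le : W ≤ L
  hI : ∀ i < W, I i (a i) = true
  hH : ∀ i, i + 1 < L → H (a i) (a (i + 1)) = true
  hV : ∀ i, i + W < L → V (a i) (a (i + W)) = true
  hF : F (a (L - 1)) = true

/-! ## Semantics of the building blocks -/

theorem mem_wordR (l w : List Bool) : w ∈ (wordR l).matches' ↔ w = l := by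
  induction l generalizing w with
  | nil => exact Iff.rfl
  | cons b l ih =>
    show w ∈ ({[b]} : Language Bool) * (wordR l).matches' ↔ _
    rw [Language.mem_mul]
    constructor
    · rintro ⟨u, hu, v, hv, rfl⟩
      rw [ih] at hv
      have hu' : u = [b] := hu
      rw [hu', hv]
      rfl
    · rintro rfl
      exact ⟨[b], rfl, l, (ih l).2 rfl, rfl⟩

theorem mem_any1 (w : List Bool) : w ∈ any1.matches' ↔ w.length = 1 := by
  show w ∈ ({[false]} : Language Bool) + ({[true]} : Language Bool) ↔ _
  rw [Language.mem_add]
  constructor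
  · rintro (h | h)
    · have h' : w = [false] := h
      rw [h']; rfl
    · have h' : w = [true] := h
      rw [h']; rfl
  · intro h
    obtain ⟨b, rfl⟩ := List.length_eq_one_iff.1 h
    cases b
    · exact Or.inl rfl
    · exact Or.inr rfl

theorem mem_powR (k : ℕ) (w : List Bool) : w ∈ (powR k).matches' ↔ w.length = k := by
  induction k generalizing w with
  | zero =>
    rw [List.length_eq_zero_iff]
    exact Iff.rfl
  | succ k ih =>
    show w ∈ any1.matches' * (powR k).matches' ↔ _
    rw [Language.mem_mul]
    constructor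
    · rintro ⟨u, hu, v, hv, rfl⟩
      rw [ih] at hv
      rw [mem_any1] at hu
      rw [List.length_append, hu, hv, add_comm]
    · intro h
      cases w with
      | nil => simp at h
      | cons b w =>
        refine ⟨[b], (mem_any1 _).2 rfl, w, (ih w).2 ?_, rfl⟩
        simpa using h

theorem mem_sumR (n : ℕ) (f : ℕ → RE) (w : List Bool) :
    w ∈ (sumR n f).matches' ↔ ∃ j < n, w ∈ (f j).matches' := by
  induction n with
  | zero =>
    constructor
    · intro h
      exact absurd h (Language.notMem_zero _)
    · rintro ⟨j, hj, -⟩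
      omega
  | succ n ih =>
    show w ∈ (f n).matches' + (sumR n f).matches' ↔ _
    rw [Language.mem_add, ih]
    constructor
    · rintro (h | ⟨j, hj, h⟩)
      · exact ⟨n, by omega, h⟩
      · exact ⟨j, by omega, h⟩
    · rintro ⟨j, hj, h⟩
      rcases Nat.lt_succ_iff_lt_or_eq.1 hj with h' | h'
      · exact Or.inr ⟨j, h', h⟩
      · subst h'
        exact Or.inl h

theorem mem_selR (c : ℕ) (P : ℕ → Bool) (w : List Bool) :
    w ∈ (selR c P).matches' ↔ ∃ j < 2 ^ c, P j = true ∧ w = bl c j := by
  unfold selR
  rw [mem_sumR]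
  constructor
  · rintro ⟨j, hj, h⟩
    refine ⟨j, hj, ?_⟩
    have h' : w ∈ (if P j then RegularExpression.epsilon else .zero : RE).matches' *
      (wordR (bl c j)).matches' := h
    rw [Language.mem_mul] at h'
    obtain ⟨u, hu, v, hv, rfl⟩ := h'
    rw [mem_wordR] at hv
    by_cases hP : P j = true
    · rw [if_pos hP] at hu
      have hu' : u = [] := hu
      refine ⟨hP, ?_⟩
      rw [hu', hv]
      rfl
    · rw [if_neg hP] at hu
      exact absurd hu (Language.notMem_zero _)
  · rintro ⟨j, hj, hP, rfl⟩
    refine ⟨j, hj, ?_⟩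
    show _ ∈ (if P j then RegularExpression.epsilon else .zero : RE).matches' *
      (wordR (bl c j)).matches'
    rw [Language.mem_mul]
    refine ⟨[], ?_, bl c j, (mem_wordR _ _).2 rfl, rfl⟩
    rw [if_pos hP]
    exact rfl

theorem mem_allR (w : List Bool) : w ∈ allR.matches' := by
  show w ∈ KStar.kstar any1.matches'
  rw [Language.mem_kstar]
  refine ⟨w.map (fun b => [b]), ?_, ?_⟩
  · induction w with
    | nil => rfl
    | cons b w ih => simpa using ih
  · intro y hy
    rw [List.mem_map] at hy
    obtain ⟨b, -, rfl⟩ := hy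
    exact (mem_any1 _).2 rfl

theorem mem_alR (c : ℕ) (w : List Bool) :
    w ∈ (alR c).matches' ↔ c ∣ w.length := by
  show w ∈ KStar.kstar (powR c).matches' ↔ _
  rw [Language.mem_kstar]
  constructor
  · rintro ⟨L, rfl, hL⟩
    induction L with
    | nil => simp
    | cons u L ih =>
      rw [List.flatten_cons, List.length_append]
      have h1 := (mem_powR c u).1 (hL u (by simp))
      rw [h1]
      exact Dvd.dvd.add (dvd_refl _) (ih (fun y hy => hL y (by simp [hy])))
  · rintro ⟨k, hk⟩
    induction k generalizing w with
    | zero =>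
      have : w = [] := List.length_eq_zero_iff.1 (by omega)
      exact ⟨[], by rw [this]; rfl, by simp⟩
    | succ k ih =>
      obtain ⟨L, h1, h2⟩ := ih (w.drop c) (by
        rw [List.length_drop, hk, Nat.mul_succ]
        omega)
      refine ⟨w.take c :: L, ?_, ?_⟩
      · rw [List.flatten_cons, ← h1, List.take_append_drop]
      · intro y hy
        rcases List.mem_cons.1 hy with rfl | hy
        · rw [mem_powR, List.length_take, hk, Nat.mul_succ]
          omega
        · exact h2 y hy

/-! ## Blocks -/

theorem bl_length (c j : ℕ) : (bl c j).length = c := by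
  simp [bl]

theorem bl_inj (c j k : ℕ) (hj : j < 2 ^ c) (hk : k < 2 ^ c) (h : bl c j = bl c k) : j = k := by
  apply Nat.eq_of_testBit_eq
  intro i
  by_cases hi : i < c
  · have h1 : (bl c j)[i]? = (bl c k)[i]? := by rw [h]
    simpa [bl, hi] using h1
  · have h2 : 2 ^ c ≤ 2 ^ i := Nat.pow_le_pow_right (by norm_num) (by omega)
    rw [Nat.testBit_lt_two_pow (by omega), Nat.testBit_lt_two_pow (by omega)]

theorem exists_bl (c : ℕ) (w : List Bool) (hw : w.length = c) : ∃ j < 2 ^ c, w = bl c j := by
  induction c generalizing w with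
  | zero =>
    refine ⟨0, by norm_num, ?_⟩
    rw [List.length_eq_zero_iff.1 hw]
    rfl
  | succ c ih =>
    cases w with
    | nil => simp at hw
    | cons b w =>
      obtain ⟨j, hj, rfl⟩ := ih w (by simpa using hw)
      refine ⟨2 * j + b.toNat, ?_, ?_⟩
      · rw [pow_succ]
        have : b.toNat ≤ 1 := Bool.toNat_le b
        omega
      · unfold bl
        rw [List.range_succ_eq_map, List.map_cons, List.map_map]
        congr 1
        · cases b <;> simp [Nat.testBit_zero]
        · apply List.map_congr_left
          intro i _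
          show _ = (2 * j + b.toNat).testBit (i + 1)
          rw [Nat.testBit_succ]
          congr 1
          have : b.toNat ≤ 1 := Bool.toNat_le b
          omega

theorem hist_succ (c : ℕ) (a : ℕ → ℕ) (L : ℕ) :
    hist c a (L + 1) = bl c (a 0) ++ hist c (fun i => a (i + 1)) L := by
  unfold hist
  rw [List.range_succ_eq_map, List.flatMap_cons, List.flatMap_map]

theorem hist_length (c : ℕ) (a : ℕ → ℕ) (L : ℕ) : (hist c a L).length = c * L := by
  induction L generalizing a with
  | zero => rfl
  | succ L ih =>
    rw [hist_succ, List.length_append, bl_length, ih, Nat.mul_succ, add_comm]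

theorem hist_congr (c : ℕ) (a b : ℕ → ℕ) (L : ℕ) (h : ∀ i < L, a i = b i) :
    hist c a L = hist c b L := by
  induction L generalizing a b with
  | zero => rfl
  | succ L ih =>
    rw [hist_succ, hist_succ, h 0 (by omega), ih _ _ (fun i hi => h (i + 1) (by omega))]

/-- Every word whose length is a multiple of `c` is a history. -/
theorem exists_hist (c L : ℕ) (w : List Bool) (hw : w.length = c * L) :
    ∃ a : ℕ → ℕ, (∀ i, a i < 2 ^ c) ∧ w = hist c a L := by
  induction L generalizing w with
  | zero =>
    refine ⟨fun _ => 0, fun _ => Nat.two_pow_pos c, ?_⟩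
    have hw0 : w = [] := List.length_eq_zero_iff.1 (by simpa using hw)
    rw [hw0]
    rfl
  | succ L ih =>
    obtain ⟨j, hj, h1⟩ := exists_bl c (w.take c) (by
      rw [List.length_take, hw, Nat.mul_succ]; omega)
    obtain ⟨a, ha, h2⟩ := ih (w.drop c) (by
      rw [List.length_drop, hw, Nat.mul_succ]; omega)
    refine ⟨fun i => match i with | 0 => j | i + 1 => a i, ?_, ?_⟩
    · intro i
      cases i with
      | zero => exact hj
      | succ i => exact ha i
    · rw [hist_succ]
      show w = bl c j ++ hist c a L
      rw [← h1, ← h2, List.take_append_drop]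

/-- The block number `i` of a history. -/
theorem hist_block (c : ℕ) (a : ℕ → ℕ) (L i : ℕ) (hi : i < L) :
    ((hist c a L).drop (c * i)).take c = bl c (a i) := by
  induction i generalizing a L with
  | zero =>
    cases L with
    | zero => omega
    | succ L =>
      rw [hist_succ, Nat.mul_zero, List.drop_zero, List.take_left' (bl_length _ _)]
  | succ i ih =>
    cases L with
    | zero => omega
    | succ L =>
      rw [hist_succ, Nat.mul_succ, add_comm (c * i) c, ← List.drop_drop,
        List.drop_left' (bl_length _ _)]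
      exact ih (fun i => a (i + 1)) L (by omega)

/-- A block read off from a decomposition. -/
theorem hist_read (c : ℕ) (hc : 1 ≤ c) (a : ℕ → ℕ) (L i j : ℕ) (ha : ∀ i < L, a i < 2 ^ c)
    (hj : j < 2 ^ c) (u v : List Bool) (hu : u.length = c * i)
    (h : hist c a L = u ++ (bl c j ++ v)) : i < L ∧ a i = j := by
  have h1 : (hist c a L).length = (u ++ (bl c j ++ v)).length := by rw [h]
  rw [hist_length, List.length_append, List.length_append, bl_length, hu] at h1
  have hi : i < L := by
    by_contra hcon
    have : c * L ≤ c * i := Nat.mul_le_mul_left c (by omega)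
    omega
  refine ⟨hi, ?_⟩
  have h2 := hist_block c a L i hi
  rw [h, List.drop_left' hu, List.take_left' (bl_length _ _)] at h2
  exact (bl_inj c _ _ hj (ha i hi) h2).symm

/-- A history is cut before and after its block number `i`. -/
theorem hist_cut (c : ℕ) (a : ℕ → ℕ) (L i : ℕ) (hi : i < L) :
    hist c a L = (hist c a L).take (c * i) ++ (bl c (a i) ++ (hist c a L).drop (c * (i + 1))) := by
  have h1 := List.take_append_drop (c * i) (hist c a L)
  have h2 := List.take_append_drop c ((hist c a L).drop (c * i))
  rw [hist_block c a L i hi, List.drop_drop] at h2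
  rw [Nat.mul_succ, h2, h1]

theorem take_length (c : ℕ) (a : ℕ → ℕ) (L i : ℕ) (hi : i ≤ L) :
    ((hist c a L).take (c * i)).length = c * i := by
  rw [List.length_take, hist_length]
  exact min_eq_left (Nat.mul_le_mul_left c hi)

/-! ## The semantics of the expression of the violations -/

theorem mem_A1 (c : ℕ) (hc : 1 ≤ c) (w : List Bool) :
    w ∈ (RegularExpression.comp (alR c) (sumR (c - 1) (fun k => powR (k + 1)))).matches' ↔
      ¬ c ∣ w.length := by
  show w ∈ (alR c).matches' * _ ↔ _
  rw [Language.mem_mul]
  constructor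
  · rintro ⟨u, hu, v, hv, rfl⟩ hd
    rw [mem_alR] at hu
    rw [mem_sumR] at hv
    obtain ⟨k, hk, hv⟩ := hv
    rw [mem_powR] at hv
    rw [List.length_append, (Nat.dvd_add_iff_right hu).symm, hv] at hd
    have := Nat.le_of_dvd (by omega) hd
    omega
  · intro hd
    refine ⟨w.take (c * (w.length / c)), ?_, w.drop (c * (w.length / c)), ?_,
      List.take_append_drop _ _⟩
    · rw [mem_alR, List.length_take, min_eq_left (Nat.mul_div_le _ _)]
      exact dvd_mul_right _ _
    · rw [mem_sumR]
      have h1 : w.length % c ≠ 0 := fun h => hd (Nat.dvd_of_mod_eq_zero h)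
      have h2 : w.length % c < c := Nat.mod_lt _ hc
      refine ⟨w.length % c - 1, by omega, ?_⟩
      rw [mem_powR, List.length_drop]
      have h3 := Nat.div_add_mod w.length c
      omega

theorem mem_frR (c : ℕ) (hc : 1 ≤ c) (I : ℕ → ℕ → Bool) (r i : ℕ) (a : ℕ → ℕ) (L : ℕ)
    (ha : ∀ k < L, a k < 2 ^ c) :
    hist c a L ∈ (frR c I r i).matches' ↔ L < r ∨ ∃ k < r, k < L ∧ I (i + k) (a k) = false := by
  induction r generalizing i a L with
  | zero =>
    constructor
    · intro h
      exact absurd h (Language.notMem_zero _)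
    · rintro (h | ⟨k, hk, -⟩) <;> omega
  | succ r ih =>
    show hist c a L ∈ (1 : Language Bool) + ((selR c (fun j => !I i j)).matches' * allR.matches' +
      (powR c).matches' * (frR c I r (i + 1)).matches') ↔ _
    rw [Language.mem_add, Language.mem_add, Language.mem_mul, Language.mem_mul]
    cases L with
    | zero =>
      constructor
      · intro _
        exact Or.inl (by omega)
      · intro _
        exact Or.inl rfl
    | succ L =>
      have ha' : ∀ k < L, (fun i => a (i + 1)) k < 2 ^ c := fun k hk => ha (k + 1) (by omega)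
      constructor
      · rintro (h | ⟨u, hu, v, -, h⟩ | ⟨u, hu, v, hv, h⟩)
        · have h' : hist c a (L + 1) = [] := h
          have h1 := hist_length c a (L + 1)
          rw [h', Nat.mul_succ] at h1
          simp at h1
          omega
        · rw [mem_selR] at hu
          obtain ⟨j, hj, hI, rfl⟩ := hu
          have h2 := hist_read c hc a (L + 1) 0 j ha hj [] v (by simp) (by
            rw [List.nil_append]; exact h.symm)
          refine Or.inr ⟨0, by omega, by omega, ?_⟩
          rw [h2.2, add_zero]
          simpa using hI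
        · rw [mem_powR] at hu
          have h3 : v = hist c (fun i => a (i + 1)) L := by
            have h4 : (u ++ v).drop c = (hist c a (L + 1)).drop c := by rw [h]
            rw [List.drop_left' hu, hist_succ, List.drop_left' (bl_length _ _)] at h4
            exact h4
          rw [h3, ih (i + 1) _ L ha'] at hv
          rcases hv with hv | ⟨k, hk, hkL, hI⟩
          · exact Or.inl (by omega)
          · refine Or.inr ⟨k + 1, by omega, by omega, ?_⟩
            have : i + (k + 1) = i + 1 + k := by omega
            rw [this]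
            exact hI
      · intro h
        have htail : (L < r ∨ ∃ k < r, k < L ∧ I (i + 1 + k) ((fun i => a (i + 1)) k) = false) →
            (hist c a (L + 1) ∈ (1 : Language Bool) ∨
            (∃ u ∈ (selR c (fun j => !I i j)).matches', ∃ v ∈ allR.matches',
              u ++ v = hist c a (L + 1)) ∨
            ∃ u ∈ (powR c).matches', ∃ v ∈ (frR c I r (i + 1)).matches',
              u ++ v = hist c a (L + 1)) := by
          intro h
          refine Or.inr (Or.inr ⟨bl c (a 0), (mem_powR _ _).2 (bl_length _ _),
            hist c (fun i => a (i + 1)) L, ?_, (hist_succ c a L).symm⟩)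
          rw [ih (i + 1) _ L ha']
          exact h
        rcases h with h | ⟨k, hk, hkL, hI⟩
        · exact htail (Or.inl (by omega))
        · cases k with
          | zero =>
            refine Or.inr (Or.inl ⟨bl c (a 0), ?_, hist c (fun i => a (i + 1)) L, mem_allR _,
              (hist_succ c a L).symm⟩)
            rw [mem_selR]
            refine ⟨a 0, ha 0 (by omega), ?_, rfl⟩
            rw [add_zero] at hI
            simp [hI]
          | succ k =>
            refine htail (Or.inr ⟨k, by omega, by omega, ?_⟩)
            have : i + (k + 1) = i + 1 + k := by omega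
            rw [this] at hI
            exact hI

theorem mem_A3 (c : ℕ) (hc : 1 ≤ c) (H : ℕ → ℕ → Bool) (a : ℕ → ℕ) (L : ℕ)
    (ha : ∀ k < L, a k < 2 ^ c) :
    hist c a L ∈ (RegularExpression.comp (alR c) (.comp
      (sumR (2 ^ c) (fun j => .comp (wordR (bl c j)) (selR c (fun k => !H j k)))) allR)).matches' ↔
    ∃ i, i + 1 < L ∧ H (a i) (a (i + 1)) = false := by
  show _ ∈ (alR c).matches' * ((sumR (2 ^ c) (fun j => RegularExpression.comp (wordR (bl c j))
    (selR c (fun k => !H j k)))).matches' * allR.matches') ↔ _
  rw [Language.mem_mul]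
  constructor
  · rintro ⟨u, hu, v, hv, h⟩
    rw [mem_alR] at hu
    obtain ⟨i, hi⟩ := hu
    rw [Language.mem_mul] at hv
    obtain ⟨v1, hv1, v2, -, rfl⟩ := hv
    rw [mem_sumR] at hv1
    obtain ⟨j, hj, hv1⟩ := hv1
    have hv1' : v1 ∈ (wordR (bl c j)).matches' * (selR c (fun k => !H j k)).matches' := hv1
    rw [Language.mem_mul] at hv1'
    obtain ⟨w1, hw1, w2, hw2, rfl⟩ := hv1'
    rw [mem_wordR] at hw1
    rw [mem_selR] at hw2
    obtain ⟨k, hk, hH, rfl⟩ := hw2
    subst hw1
    have h1 := hist_read c hc a L i j ha hj u (bl c k ++ v2) hi (by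
      rw [← h]; simp)
    have h2 := hist_read c hc a L (i + 1) k ha hk (u ++ bl c j) v2 (by
      rw [List.length_append, hi, bl_length, Nat.mul_succ]) (by rw [← h]; simp)
    refine ⟨i, h2.1, ?_⟩
    rw [h1.2, h2.2]
    simpa using hH
  · rintro ⟨i, hi, hH⟩
    refine ⟨(hist c a L).take (c * i), ?_, (bl c (a i) ++ bl c (a (i + 1))) ++
      (hist c a L).drop (c * (i + 2)), ?_, ?_⟩
    · rw [mem_alR, take_length c a L i (by omega)]
      exact dvd_mul_right _ _
    · rw [Language.mem_mul]
      refine ⟨_, ?_, _, mem_allR _, rfl⟩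
      rw [mem_sumR]
      refine ⟨a i, ha i (by omega), ?_⟩
      show _ ∈ (wordR (bl c (a i))).matches' * (selR c (fun k => !H (a i) k)).matches'
      rw [Language.mem_mul]
      refine ⟨_, (mem_wordR _ _).2 rfl, _, ?_, rfl⟩
      rw [mem_selR]
      exact ⟨a (i + 1), ha _ hi, by simp [hH], rfl⟩
    · have h1 := hist_cut c a L i (by omega)
      have h2 := List.take_append_drop c ((hist c a L).drop (c * (i + 1)))
      rw [hist_block c a L (i + 1) hi, List.drop_drop] at h2
      have h3 : c * (i + 2) = c * (i + 1) + c := by ring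
      rw [h3, List.append_assoc, h2]
      exact h1.symm

theorem mem_A4 (c : ℕ) (hc : 1 ≤ c) (W : ℕ) (hW : 1 ≤ W) (V : ℕ → ℕ → Bool) (a : ℕ → ℕ) (L : ℕ)
    (ha : ∀ k < L, a k < 2 ^ c) :
    hist c a L ∈ (RegularExpression.comp (alR c) (.comp
      (sumR (2 ^ c) (fun j => .comp (wordR (bl c j))
              (.comp (powR (c * (W - 1))) (selR c (fun k => !V j k))))) allR)).matches' ↔
    ∃ i, i + W < L ∧ V (a i) (a (i + W)) = false := by
  show _ ∈ (alR c).matches' * ((sumR (2 ^ c) (fun j => RegularExpression.comp (wordR (bl c j))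
    (.comp (powR (c * (W - 1))) (selR c (fun k => !V j k))))).matches' * allR.matches') ↔ _
  rw [Language.mem_mul]
  constructor
  · rintro ⟨u, hu, v, hv, h⟩
    rw [mem_alR] at hu
    obtain ⟨i, hi⟩ := hu
    rw [Language.mem_mul] at hv
    obtain ⟨v1, hv1, v2, -, rfl⟩ := hv
    rw [mem_sumR] at hv1
    obtain ⟨j, hj, hv1⟩ := hv1
    have hv1' : v1 ∈ (wordR (bl c j)).matches' *
      ((powR (c * (W - 1))).matches' * (selR c (fun k => !V j k)).matches') := hv1
    rw [Language.mem_mul] at hv1'
    obtain ⟨w1, hw1, w2, hw2, rfl⟩ := hv1'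
    rw [Language.mem_mul] at hw2
    obtain ⟨w3, hw3, w4, hw4, rfl⟩ := hw2
    rw [mem_wordR] at hw1
    rw [mem_powR] at hw3
    rw [mem_selR] at hw4
    obtain ⟨k, hk, hH, rfl⟩ := hw4
    subst hw1
    have h1 := hist_read c hc a L i j ha hj u (w3 ++ (bl c k ++ v2)) hi (by
      rw [← h]; simp)
    have h2 := hist_read c hc a L (i + W) k ha hk (u ++ (bl c j ++ w3)) v2 (by
      rw [List.length_append, List.length_append, hi, bl_length, hw3]
      obtain ⟨W', rfl⟩ : ∃ W', W = W' + 1 := ⟨W - 1, by omega⟩
      rw [Nat.add_sub_cancel]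
      ring) (by rw [← h]; simp)
    refine ⟨i, h2.1, ?_⟩
    rw [h1.2, h2.2]
    simpa using hH
  · rintro ⟨i, hi, hH⟩
    refine ⟨(hist c a L).take (c * i), ?_, (bl c (a i) ++
      (((hist c a L).drop (c * (i + 1))).take (c * (W - 1)) ++ bl c (a (i + W)))) ++
      (hist c a L).drop (c * (i + W + 1)), ?_, ?_⟩
    · rw [mem_alR, take_length c a L i (by omega)]
      exact dvd_mul_right _ _
    · rw [Language.mem_mul]
      refine ⟨_, ?_, _, mem_allR _, rfl⟩
      rw [mem_sumR]
      refine ⟨a i, ha i (by omega), ?_⟩
      show _ ∈ (wordR (bl c (a i))).matches' *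
        ((powR (c * (W - 1))).matches' * (selR c (fun k => !V (a i) k)).matches')
      rw [Language.mem_mul]
      refine ⟨_, (mem_wordR _ _).2 rfl, _, ?_, rfl⟩
      rw [Language.mem_mul]
      refine ⟨_, ?_, _, ?_, rfl⟩
      · rw [mem_powR, List.length_take, List.length_drop, hist_length]
        apply min_eq_left
        have h5 : c * (i + 1) + c * (W - 1) ≤ c * L := by
          rw [← Nat.mul_add]
          exact Nat.mul_le_mul_left c (by omega)
        omega
      · rw [mem_selR]
        exact ⟨a (i + W), ha _ hi, by simp [hH], rfl⟩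
    · have h1 := hist_cut c a L i (by omega)
      have h2 := List.take_append_drop (c * (W - 1)) ((hist c a L).drop (c * (i + 1)))
      have h3 := List.take_append_drop c ((hist c a L).drop (c * (i + W)))
      rw [hist_block c a L (i + W) hi, List.drop_drop] at h3
      have h4 : c * (i + 1) + c * (W - 1) = c * (i + W) := by
        rw [← Nat.mul_add]
        congr 1
        omega
      rw [List.drop_drop, h4] at h2
      have h5 : c * (i + W + 1) = c * (i + W) + c := by ring
      rw [h5, List.append_assoc, List.append_assoc, h3, h2]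
      exact h1.symm

theorem mem_A5 (c : ℕ) (hc : 1 ≤ c) (F : ℕ → Bool) (a : ℕ → ℕ) (L : ℕ)
    (ha : ∀ k < L, a k < 2 ^ c) :
    hist c a L ∈ (RegularExpression.comp (alR c) (selR c (fun j => !F j))).matches' ↔
    1 ≤ L ∧ F (a (L - 1)) = false := by
  show _ ∈ (alR c).matches' * (selR c (fun j => !F j)).matches' ↔ _
  rw [Language.mem_mul]
  constructor
  · rintro ⟨u, hu, v, hv, h⟩
    rw [mem_alR] at hu
    obtain ⟨i, hi⟩ := hu
    rw [mem_selR] at hv
    obtain ⟨j, hj, hF, rfl⟩ := hv
    have h1 := hist_read c hc a L i j ha hj u [] hi (by rw [← h]; simp)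
    have h2 : (hist c a L).length = (u ++ bl c j).length := by rw [h]
    rw [hist_length, List.length_append, bl_length, hi] at h2
    have h3 : L = i + 1 := by
      have : c * L = c * (i + 1) := by rw [h2]; ring
      exact Nat.eq_of_mul_eq_mul_left (by omega) this
    refine ⟨by omega, ?_⟩
    rw [h3, Nat.add_sub_cancel, h1.2]
    simpa using hF
  · rintro ⟨hL, hF⟩
    refine ⟨(hist c a L).take (c * (L - 1)), ?_, bl c (a (L - 1)), ?_, ?_⟩
    · rw [mem_alR, take_length c a L _ (by omega)]
      exact dvd_mul_right _ _
    · rw [mem_selR]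
      exact ⟨a (L - 1), ha _ (by omega), by simp [hF], rfl⟩
    · have h1 := hist_cut c a L (L - 1) (by omega)
      have h2 : L - 1 + 1 = L := by omega
      rw [h2, List.drop_of_length_le (by rw [hist_length]), List.append_nil] at h1
      exact h1.symm

/-- The words outside `vioR` are exactly the valid histories. -/
theorem notMem_vioR (c : ℕ) (hc : 1 ≤ c) (W : ℕ) (hW : 1 ≤ W) (I H V : ℕ → ℕ → Bool)
    (F : ℕ → Bool) (w : List Bool) :
    w ∉ (vioR c W I H V F).matches' ↔ ∃ a L, w = hist c a L ∧ Valid c W I H V F a L := by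
  have key : ∀ (a : ℕ → ℕ) (L : ℕ), (∀ k < L, a k < 2 ^ c) →
      (hist c a L ∈ (vioR c W I H V F).matches' ↔ ¬ Valid c W I H V F a L) := by
    intro a L ha
    have h1 : hist c a L ∈ (vioR c W I H V F).matches' ↔
        (¬ c ∣ (hist c a L).length) ∨ (L < W ∨ ∃ k < W, k < L ∧ I (0 + k) (a k) = false) ∨
        (∃ i, i + 1 < L ∧ H (a i) (a (i + 1)) = false) ∨
        (∃ i, i + W < L ∧ V (a i) (a (i + W)) = false) ∨ (1 ≤ L ∧ F (a (L - 1)) = false) := by
      rw [← mem_A1 c hc, ← mem_frR c hc I W 0 a L ha, ← mem_A3 c hc H a L ha,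
        ← mem_A4 c hc W hW V a L ha, ← mem_A5 c hc F a L ha]
      exact Iff.rfl
    rw [h1]
    constructor
    · rintro (h | (h | ⟨k, hk, -, h⟩) | ⟨i, hi, h⟩ | ⟨i, hi, h⟩ | ⟨hL, h⟩) hv
      · exact h (by rw [hist_length]; exact dvd_mul_right _ _)
      · have := hv.le
        omega
      · rw [zero_add, hv.hI k hk] at h
        exact absurd h (by simp)
      · rw [hv.hH i hi] at h
        exact absurd h (by simp)
      · rw [hv.hV i hi] at h
        exact absurd h (by simp)
      · rw [hv.hF] at h
        exact absurd h (by simp)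
    · intro hv
      by_contra hcon
      push Not at hcon
      obtain ⟨-, ⟨h2, h3⟩, h4, h5, h6⟩ := hcon
      apply hv
      refine ⟨ha, h2, ?_, ?_, ?_, ?_⟩
      · intro i hi
        have := h3 i hi (by omega)
        rw [zero_add] at this
        simpa using this
      · intro i hi
        simpa using h4 i hi
      · intro i hi
        simpa using h5 i hi
      · simpa using h6 (by omega)
  constructor
  · intro h
    have hd : c ∣ w.length := by
      by_contra hd
      apply h
      have h1 := (mem_A1 c hc w).2 hd
      exact Or.inl h1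
    obtain ⟨L, hL⟩ := hd
    obtain ⟨a, ha, rfl⟩ := exists_hist c L w hL
    refine ⟨a, L, rfl, ?_⟩
    by_contra hv
    exact h ((key a L (fun k _ => ha k)).2 hv)
  · rintro ⟨a, L, rfl, hv⟩ h
    exact (key a L hv.lt).1 h hv

end Pool.Agent.Work.MP_71c844_lc.Rx
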